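import Mathlib

/-!
Project GS (MP_b8862a_ag): the number of subsets with prescribed elements.
-/

set_option linter.unusedSectionVars false
set_option linter.unusedVariables false

open Finset

namespace MH.GS

variable {N : ℕ}

/-- subsets with `k` elements that contain `A` and avoid `B` -/
theorem cnt (A B : Finset (Fin N)) (hAB : Disjoint A B) {k : ℕ} (hk : A.card ≤ k) :
    ((univ : Finset (Finset (Fin N))).filter fun T => T.card = k ∧ A ⊆ T ∧ Disjoint B T).card =
      (N - A.card - B.card).choose (k - A.card) := by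
  have h1 : (powersetCard (k - A.card) ((univ \ A) \ B)).card = (N - A.card - B.card).choose (k - A.card) := by
    rw [card_powersetCard]
    congr 1
    rw [card_sdiff_of_subset, card_sdiff_of_subset (subset_univ A), card_univ, Fintype.card_fin]
    intro x hx
    rw [mem_sdiff]
    exact ⟨mem_univ _, fun h => (disjoint_left.1 hAB h) hx⟩
  rw [← h1]
  refine card_bij (fun T _ => T \ A) ?_ ?_ ?_
  · intro T hT
    rw [mem_filter] at hT
    obtain ⟨_, hc, hA, hB⟩ := hT
    rw [mem_powersetCard]
    refine ⟨fun x hx => ?_, ?_⟩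
    · rw [mem_sdiff] at hx
      rw [mem_sdiff, mem_sdiff]
      exact ⟨⟨mem_univ _, hx.2⟩, fun h => (disjoint_left.1 hB h) hx.1⟩
    · rw [card_sdiff_of_subset hA, hc]
  · intro T hT T' hT' h
    rw [mem_filter] at hT hT'
    have e1 : T = (T \ A) ∪ A := (sdiff_union_of_subset hT.2.2.1).symm
    have e2 : T' = (T' \ A) ∪ A := (sdiff_union_of_subset hT'.2.2.1).symm
    rw [e1, e2]
    exact congrArg (· ∪ A) h
  · intro U hU
    rw [mem_powersetCard] at hU
    obtain ⟨hs, hc⟩ := hU
    have hUA : Disjoint U A := by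
      rw [disjoint_left]
      intro x hx
      have := hs hx
      rw [mem_sdiff, mem_sdiff] at this
      exact this.1.2
    refine ⟨U ∪ A, ?_, ?_⟩
    · rw [mem_filter]
      refine ⟨mem_univ _, ?_, subset_union_right, ?_⟩
      · rw [card_union_of_disjoint hUA, hc]
        omega
      · rw [disjoint_union_right]
        refine ⟨?_, hAB.symm⟩
        rw [disjoint_right]
        intro x hx
        have := hs hx
        rw [mem_sdiff] at this
        exact this.2
    · show (U ∪ A) \ A = U
      rw [union_sdiff_right]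
      exact sdiff_eq_self_of_disjoint hUA

theorem cnt_in_out {k : ℕ} {i j : Fin N} (h : i ≠ j) (hk : 1 ≤ k) :
    ((univ : Finset (Finset (Fin N))).filter fun T => T.card = k ∧ i ∈ T ∧ j ∉ T).card = (N - 2).choose (k - 1) := by
  have h1 := cnt {i} {j} (disjoint_singleton.2 h) (k := k) (by simpa using hk)
  rw [card_singleton, card_singleton, Nat.sub_sub] at h1
  rw [← h1]
  congr 1
  ext T
  simp

theorem cnt_in_in {k : ℕ} {i j : Fin N} (h : i ≠ j) (hk : 2 ≤ k) :
    ((univ : Finset (Finset (Fin N))).filter fun T => T.card = k ∧ i ∈ T ∧ j ∈ T).card = (N - 2).choose (k - 2) := by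
  have h1 := cnt {i, j} ∅ (disjoint_empty_right _) (k := k) (by rw [card_pair h]; exact hk)
  rw [card_pair h, card_empty, Nat.sub_zero] at h1
  rw [← h1]
  congr 1
  ext T
  simp [insert_subset_iff]

theorem cnt_out_out {k : ℕ} {i j : Fin N} (h : i ≠ j) :
    ((univ : Finset (Finset (Fin N))).filter fun T => T.card = k ∧ i ∉ T ∧ j ∉ T).card = (N - 2).choose k := by
  have h1 := cnt (∅ : Finset (Fin N)) {i, j} (disjoint_empty_left _) (k := k) (by simp)
  rw [card_pair h, card_empty, Nat.sub_zero, Nat.sub_zero] at h1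
  rw [← h1]
  congr 1
  ext T
  simp

theorem cnt_in {k : ℕ} (i : Fin N) (hk : 1 ≤ k) :
    ((univ : Finset (Finset (Fin N))).filter fun T => T.card = k ∧ i ∈ T).card = (N - 1).choose (k - 1) := by
  have h1 := cnt {i} ∅ (disjoint_empty_right _) (k := k) (by simpa using hk)
  rw [card_singleton, card_empty, Nat.sub_zero] at h1
  rw [← h1]
  congr 1
  ext T
  simp

end MH.GS
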