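import Pool.Agent.Helper27.PGN.Big

/-!
Project GS (MP_b8862a_ag): the Fock space over the subsets of `Fin N` and the complement pairing.
-/

set_option linter.unusedSectionVars false
set_option linter.unusedVariables false

open Matrix

namespace MH.GS

section op

variable {ι : Type*} [Fintype ι] [DecidableEq ι]

/-- the matrix of a signed map -/
def op (f : ι → ι) (c : ι → ℚ) : Matrix ι ι ℚ := Matrix.of fun S T => if S = f T then c T else 0

theorem op_apply (f : ι → ι) (c : ι → ℚ) (S T : ι) : op f c S T = if S = f T then c T else 0 := rfl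

theorem op_mul (f g : ι → ι) (c d : ι → ℚ) : op f c * op g d = op (fun T => f (g T)) (fun T => c (g T) * d T) := by
  ext S T
  rw [Matrix.mul_apply, op_apply]
  simp only [op_apply]
  rw [Finset.sum_eq_single (g T)]
  · rw [if_pos rfl]
    split_ifs with h
    · rfl
    · rw [zero_mul]
  · intro U _ hU
    rw [if_neg hU, mul_zero]
  · intro h
    exact absurd (Finset.mem_univ _) h

theorem op_congr {f g : ι → ι} {c d : ι → ℚ} (h1 : ∀ T, c T = d T) (h2 : ∀ T, c T ≠ 0 → f T = g T) : op f c = op g d := by
  ext S T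
  rw [op_apply, op_apply]
  by_cases h : c T = 0
  · rw [← h1 T, h]
    simp
  · rw [h2 T h, h1 T]

theorem op_add_eq_zero {f g : ι → ι} {c d : ι → ℚ} (h1 : ∀ T, c T + d T = 0) (h2 : ∀ T, c T ≠ 0 → f T = g T) :
    op f c + op g d = 0 := by
  ext S T
  rw [Matrix.add_apply, op_apply, op_apply, Matrix.zero_apply]
  have h3 := h1 T
  by_cases h : c T = 0
  · have h4 : d T = 0 := by rw [h, zero_add] at h3; exact h3
    rw [h, h4]
    simp
  · rw [h2 T h]
    split_ifs
    · exact h3
    · rw [add_zero]

theorem op_id (c : ι → ℚ) : op (fun T => T) c = diagonal c := by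
  ext S T
  rw [op_apply, Matrix.diagonal_apply]
  by_cases h : S = T
  · rw [if_pos h, if_pos h, h]
  · rw [if_neg h, if_neg h]

end op

section car

variable {N : ℕ}

/-- the sign of moving past the elements before `i` -/
def sg (i : Fin N) (T : Finset (Fin N)) : ℚ := ∏ t ∈ T, (if t < i then -1 else 1)

/-- annihilation -/
def an (i : Fin N) : Matrix (Finset (Fin N)) (Finset (Fin N)) ℚ :=
  op (fun T => T.erase i) fun T => if i ∈ T then sg i T else 0

/-- creation -/
def cr (i : Fin N) : Matrix (Finset (Fin N)) (Finset (Fin N)) ℚ :=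
  op (fun T => insert i T) fun T => if i ∈ T then 0 else sg i T

theorem sg_sq (i : Fin N) (T : Finset (Fin N)) : sg i T * sg i T = 1 := by
  rw [sg, ← Finset.prod_mul_distrib]
  refine Finset.prod_eq_one fun t _ => ?_
  split_ifs <;> norm_num

theorem sg_insert (i j : Fin N) {T : Finset (Fin N)} (h : j ∉ T) :
    sg i (insert j T) = (if j < i then -1 else 1) * sg i T := by
  rw [sg, Finset.prod_insert h, ← sg]

theorem sg_erase (i j : Fin N) {T : Finset (Fin N)} (h : j ∈ T) :
    sg i (T.erase j) = (if j < i then -1 else 1) * sg i T := by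
  have h1 := sg_insert i j (T := T.erase j) (Finset.notMem_erase j T)
  rw [Finset.insert_erase h] at h1
  rw [h1, ← mul_assoc]
  have h2 : ((if j < i then -1 else 1 : ℚ)) * (if j < i then -1 else 1) = 1 := by split_ifs <;> norm_num
  rw [h2, one_mul]

theorem sg_ne (i : Fin N) (T : Finset (Fin N)) : sg i T ≠ 0 := by
  intro h
  have := sg_sq i T
  rw [h, zero_mul] at this
  exact zero_ne_one this

theorem an_tr (i : Fin N) : (an i)ᵀ = cr i := by
  ext S T
  rw [Matrix.transpose_apply, an, cr, op_apply, op_apply]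
  by_cases h : i ∈ T
  · rw [if_pos h, ite_self]
    by_cases h2 : T = S.erase i
    · exact absurd h (by rw [h2]; exact Finset.notMem_erase i S)
    · rw [if_neg h2]
  · rw [if_neg h]
    by_cases h2 : S = insert i T
    · rw [if_pos h2, h2, Finset.erase_insert h, if_pos rfl, if_pos (Finset.mem_insert_self i T), sg_insert i i h,
        if_neg (lt_irrefl i), one_mul]
    · rw [if_neg h2]
      split_ifs with h3 h4
      · refine absurd ?_ h2
        rw [h3, Finset.insert_erase h4]
      · rfl
      · rfl

theorem cr_tr (i : Fin N) : (cr i)ᵀ = an i := by rw [← an_tr, Matrix.transpose_transpose]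

/-- the number operator -/
theorem cr_an (i : Fin N) : cr i * an i = diagonal fun T => if i ∈ T then 1 else 0 := by
  rw [cr, an, op_mul, ← op_id]
  refine op_congr (fun T => ?_) fun T hT => ?_
  · by_cases h : i ∈ T
    · rw [if_neg (Finset.notMem_erase i T), if_pos h, if_pos h, sg_erase i i h, if_neg (lt_irrefl i), one_mul, sg_sq]
    · rw [if_neg h, if_neg h, mul_zero]
  · by_cases h : i ∈ T
    · exact Finset.insert_erase h
    · rw [if_neg h, mul_zero] at hT
      exact absurd rfl hT

theorem an_cr (i : Fin N) : an i * cr i = diagonal fun T => if i ∈ T then 0 else 1 := by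
  rw [cr, an, op_mul, ← op_id]
  refine op_congr (fun T => ?_) fun T hT => ?_
  · by_cases h : i ∈ T
    · rw [if_pos h, if_pos h, mul_zero]
    · rw [if_pos (Finset.mem_insert_self i T), if_neg h, if_neg h, sg_insert i i h, if_neg (lt_irrefl i), one_mul, sg_sq]
  · by_cases h : i ∈ T
    · rw [if_pos h, mul_zero] at hT
      exact absurd rfl hT
    · exact Finset.erase_insert h

theorem ne_sign {i j : Fin N} (h : i ≠ j) : (if j < i then -1 else 1 : ℚ) = -(if i < j then -1 else 1) := by
  rcases lt_or_gt_of_ne h with h1 | h1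
  · rw [if_neg (not_lt.2 h1.le), if_pos h1, neg_neg]
  · rw [if_pos h1, if_neg (not_lt.2 h1.le)]

theorem an_cr_ne {i j : Fin N} (h : i ≠ j) : an i * cr j + cr j * an i = 0 := by
  rw [cr, an, op_mul, op_mul]
  refine op_add_eq_zero (fun T => ?_) fun T hT => ?_
  · by_cases h1 : j ∈ T
    · have h2 : j ∈ T.erase i := Finset.mem_erase.2 ⟨h.symm, h1⟩
      rw [if_pos h1, if_pos h2, mul_zero, zero_mul, add_zero]
    · have h2 : j ∉ T.erase i := fun h3 => h1 (Finset.mem_of_mem_erase h3)
      rw [if_neg h1, if_neg h2]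
      by_cases h3 : i ∈ T
      · rw [if_pos h3, if_pos (Finset.mem_insert_of_mem h3), sg_insert i j h1, sg_erase j i h3, ne_sign h]
        ring
      · have h4 : i ∉ insert j T := fun h5 => (Finset.mem_insert.1 h5).elim h h3
        rw [if_neg h3, if_neg h4, zero_mul, mul_zero, add_zero]
  · exact Finset.erase_insert_of_ne (fun h5 => h h5.symm)

theorem an_an (i j : Fin N) : an i * an j + an j * an i = 0 := by
  by_cases h : i = j
  · subst h
    rw [an, op_mul, ← two_smul ℚ]
    have h1 : op (fun T : Finset (Fin N) => (T.erase i).erase i)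
        (fun T => (if i ∈ T.erase i then sg i (T.erase i) else 0) * if i ∈ T then sg i T else 0) = 0 := by
      ext S T
      rw [op_apply, if_neg (Finset.notMem_erase i T), zero_mul, ite_self]
      rfl
    rw [h1, smul_zero]
  · rw [an, an, op_mul, op_mul]
    refine op_add_eq_zero (fun T => ?_) fun T hT => ?_
    · by_cases h1 : i ∈ T
      · by_cases h2 : j ∈ T
        · rw [if_pos h1, if_pos h2, if_pos (Finset.mem_erase.2 ⟨h, h1⟩), if_pos (Finset.mem_erase.2 ⟨Ne.symm h, h2⟩),
            sg_erase i j h2, sg_erase j i h1, ne_sign h]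
          ring
        · rw [if_neg h2, if_neg (fun h3 => h2 (Finset.mem_of_mem_erase h3)), mul_zero, zero_mul, add_zero]
      · rw [if_neg h1, if_neg (fun h3 => h1 (Finset.mem_of_mem_erase h3)), mul_zero, zero_mul, add_zero]
    · exact Finset.erase_right_comm

theorem cr_cr (i j : Fin N) : cr i * cr j + cr j * cr i = 0 := by
  have h := congrArg Matrix.transpose (an_an j i)
  rw [Matrix.transpose_add, Matrix.transpose_mul, Matrix.transpose_mul, an_tr, an_tr, Matrix.transpose_zero] at h
  exact h

theorem one_eq_diag : (1 : Matrix (Finset (Fin N)) (Finset (Fin N)) ℚ) = diagonal fun _ => 1 := rfl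

theorem an_cr_self (i : Fin N) : an i * cr i + cr i * an i = 1 := by
  rw [an_cr, cr_an, Matrix.diagonal_add, one_eq_diag]
  congr 1
  ext T
  split_ifs <;> norm_num

theorem car (i j : Fin N) : an i * cr j = (if i = j then (1 : Matrix _ _ ℚ) else 0) - cr j * an i := by
  by_cases h : i = j
  · subst h
    rw [if_pos rfl, ← an_cr_self i, add_sub_cancel_right]
  · rw [if_neg h, zero_sub, eq_neg_iff_add_eq_zero]
    exact an_cr_ne h

/-- the action of the elementary matrices -/
def rho (i j : Fin N) : Matrix (Finset (Fin N)) (Finset (Fin N)) ℚ := cr i * an j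

theorem rho_tr (i j : Fin N) : (rho i j)ᵀ = rho j i := by
  rw [rho, Matrix.transpose_mul, an_tr, cr_tr, rho]

theorem rho_br (a b i j : Fin N) : rho a b * rho i j - rho i j * rho a b =
    (if b = i then rho a j else 0) - (if j = a then rho i b else 0) := by
  have e1 : rho a b * rho i j = (if b = i then rho a j else 0) - cr a * cr i * (an b * an j) := by
    have h1 : rho a b * rho i j = cr a * (an b * cr i) * an j := by simp only [rho, mul_assoc]
    rw [h1, car]
    by_cases h : b = i
    · rw [if_pos h, if_pos h, mul_sub, sub_mul, mul_one, rho]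
      simp only [mul_assoc]
    · rw [if_neg h, if_neg h, mul_sub, sub_mul, mul_zero, zero_mul]
      simp only [mul_assoc]
  have e2 : rho i j * rho a b = (if j = a then rho i b else 0) - cr i * cr a * (an j * an b) := by
    have h1 : rho i j * rho a b = cr i * (an j * cr a) * an b := by simp only [rho, mul_assoc]
    rw [h1, car]
    by_cases h : j = a
    · rw [if_pos h, if_pos h, mul_sub, sub_mul, mul_one, rho]
      simp only [mul_assoc]
    · rw [if_neg h, if_neg h, mul_sub, sub_mul, mul_zero, zero_mul]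
      simp only [mul_assoc]
  have e3 : cr i * cr a * (an j * an b) = cr a * cr i * (an b * an j) := by
    rw [eq_neg_of_add_eq_zero_left (cr_cr i a), eq_neg_of_add_eq_zero_left (an_an j b), neg_mul_neg]
  rw [e1, e2, e3]
  abel

theorem rho_rho_swap {i j : Fin N} (h : i ≠ j) :
    rho i j * rho j i = diagonal fun T => if i ∈ T ∧ j ∉ T then 1 else 0 := by
  have e1 : rho i j * rho j i = cr i * an i * (an j * cr j) := by
    have h1 : rho i j * rho j i = cr i * (an j * cr j) * an i := by simp only [rho, mul_assoc]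
    have h2 : an j * cr j * an i = an i * (an j * cr j) := by
      have h3 : cr j * an i = -(an i * cr j) := by
        rw [eq_neg_iff_add_eq_zero, add_comm]
        exact an_cr_ne h
      rw [mul_assoc, h3, mul_neg, ← mul_assoc, ← neg_mul, ← mul_assoc]
      congr 1
      rw [neg_eq_iff_add_eq_zero]
      exact an_an j i
    rw [h1, mul_assoc, h2, mul_assoc]
  rw [e1, cr_an, an_cr, Matrix.diagonal_mul_diagonal]
  congr 1
  ext T
  by_cases h1 : i ∈ T <;> by_cases h2 : j ∈ T <;> simp [h1, h2]

end car

section compl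

variable {N : ℕ}

/-- the sign of the complement pairing -/
def ep (T : Finset (Fin N)) : ℚ := ∏ t ∈ T, (-1) ^ t.val

/-- the complement pairing -/
def KK (N : ℕ) : Matrix (Finset (Fin N)) (Finset (Fin N)) ℚ := op (fun T => Tᶜ) ep

theorem ep_sq (T : Finset (Fin N)) : ep T * ep T = 1 := by
  rw [ep, ← Finset.prod_mul_distrib]
  refine Finset.prod_eq_one fun t _ => ?_
  rw [← mul_pow, neg_mul_neg, one_mul, one_pow]

theorem sg_compl (i : Fin N) (T : Finset (Fin N)) : sg i T * sg i Tᶜ = (-1) ^ i.val := by
  rw [sg, sg, Finset.prod_mul_prod_compl, Finset.prod_ite, Finset.prod_const, Finset.prod_const_one, mul_one]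
  congr 1
  rw [← Fin.card_Iio i]
  congr 1
  ext t
  simp

theorem ep_erase {i : Fin N} {T : Finset (Fin N)} (h : i ∈ T) : ep (T.erase i) * (-1) ^ i.val = ep T := by
  rw [ep, ep, Finset.prod_erase_mul _ _ h]

/-- the pairing exchanges annihilation and creation -/
theorem KK_an (i : Fin N) : KK N * an i = cr i * KK N := by
  rw [KK, an, cr, op_mul, op_mul]
  refine op_congr (fun T => ?_) fun T hT => ?_
  · by_cases h : i ∈ T
    · have h1 : i ∉ Tᶜ := fun h2 => (Finset.mem_compl.1 h2) h
      rw [if_pos h, if_neg h1]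
      have h2 := sg_compl i T
      have h3 := ep_erase h
      have h4 := sg_sq i Tᶜ
      calc ep (T.erase i) * sg i T = ep (T.erase i) * (sg i T * sg i Tᶜ) * sg i Tᶜ := by
            linear_combination (-(ep (T.erase i) * sg i T)) * h4
        _ = sg i Tᶜ * ep T := by rw [h2, h3]; ring
    · have h1 : i ∈ Tᶜ := Finset.mem_compl.2 h
      rw [if_neg h, if_pos h1, mul_zero, zero_mul]
  · show (T.erase i)ᶜ = insert i Tᶜ
    exact Finset.compl_erase

theorem ep_compl {k : ℕ} (hN : N = 2 * k) (hk : Even k) (T : Finset (Fin N)) : ep Tᶜ = ep T := by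
  have h1 : ep T * ep Tᶜ = 1 := by
    rw [ep, ep, Finset.prod_mul_prod_compl, Finset.prod_pow_eq_pow_sum, Fin.sum_univ_eq_sum_range (fun i => i) N,
      Finset.sum_range_id]
    obtain ⟨m, hm⟩ := hk
    have h2 : N * (N - 1) / 2 = k * (N - 1) := by
      rw [hN, mul_assoc, Nat.mul_div_cancel_left _ two_pos]
    rw [h2]
    have h3 : Even (k * (N - 1)) := ⟨m * (N - 1), by rw [hm]; ring⟩
    exact h3.neg_one_pow
  calc ep Tᶜ = (ep T * ep T) * ep Tᶜ := by rw [ep_sq, one_mul]
    _ = ep T * (ep T * ep Tᶜ) := by ring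
    _ = ep T := by rw [h1, mul_one]

theorem KK_tr {k : ℕ} (hN : N = 2 * k) (hk : Even k) : (KK N)ᵀ = KK N := by
  ext S T
  rw [Matrix.transpose_apply, KK, op_apply, op_apply]
  by_cases h : T = Sᶜ
  · have h2 : S = Tᶜ := by rw [h, compl_compl]
    rw [if_pos h, if_pos h2, h, ep_compl hN hk]
  · have h2 : S ≠ Tᶜ := fun h3 => h (by rw [h3, compl_compl])
    rw [if_neg h, if_neg h2]

theorem KK_sq {k : ℕ} (hN : N = 2 * k) (hk : Even k) : KK N * KK N = 1 := by
  rw [KK, op_mul, one_eq_diag, ← op_id]
  refine op_congr (fun T => ?_) fun T hT => ?_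
  · rw [ep_compl hN hk, ep_sq]
  · exact compl_compl T

theorem KK_cr {k : ℕ} (hN : N = 2 * k) (hk : Even k) (i : Fin N) : KK N * cr i = an i * KK N := by
  calc KK N * cr i = KK N * (cr i * KK N) * KK N := by
        rw [mul_assoc, mul_assoc, KK_sq hN hk, mul_one]
    _ = KK N * (KK N * an i) * KK N := by rw [KK_an]
    _ = an i * KK N := by rw [← mul_assoc, KK_sq hN hk, one_mul]

theorem KK_rho {k : ℕ} (hN : N = 2 * k) (hk : Even k) (i j : Fin N) :
    KK N * rho i j = ((if i = j then (1 : Matrix _ _ ℚ) else 0) - rho j i) * KK N := by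
  calc KK N * rho i j = (KK N * cr i) * an j := by rw [rho, mul_assoc]
    _ = an i * (KK N * an j) := by rw [KK_cr hN hk, mul_assoc]
    _ = an i * cr j * KK N := by rw [KK_an, mul_assoc]
    _ = _ := by rw [car, rho]

end compl

end MH.GS
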