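import Pool.Agent.Helper90.GS.Mid3

/-!
Project GS (MP_b8862a_ag): the two families of Hodge numbers of middle exterior powers.
-/

set_option linter.unusedSectionVars false
set_option linter.unusedVariables false

open Matrix Module MH

namespace MH

namespace GS

theorem choose_ge : ∀ {n r : ℕ}, 1 ≤ r → r < n → n ≤ n.choose r := by
  intro n
  induction n with
  | zero => intro r _ h; omega
  | succ n ih =>
    intro r h1 h2
    obtain ⟨r, rfl⟩ : ∃ q, r = q + 1 := ⟨r - 1, by omega⟩
    rw [Nat.choose_succ_succ']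
    by_cases h3 : r + 1 < n
    · have h4 := ih (r := r + 1) (by omega) h3
      have h5 : 1 ≤ n.choose r := Nat.choose_pos (by omega)
      omega
    · have h4 : n = r + 1 := by omega
      subst h4
      rw [Nat.choose_self, Nat.choose_succ_self_right]

variable {N : ℕ}

/-- the weights of the first family -/
def y1 (a b : Fin N) (t : Fin N) : ℤ := (if t = a then 1 else 0) - (if t = b then 1 else 0)

/-- the weights of the second family -/
def y2 (a b : Fin N) (t : Fin N) : ℤ := (if t = a then 1 else 0) + (if t = b then 1 else 0)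

theorem lvl1 (a b : Fin N) (T : Finset (Fin N)) :
    lvl (y1 a b) 0 T = (if a ∈ T then 1 else 0) - (if b ∈ T then 1 else 0) := by
  simp only [lvl, y1, Finset.sum_sub_distrib, Finset.sum_ite_eq', sub_zero]

theorem lvl2 (a b : Fin N) (T : Finset (Fin N)) :
    lvl (y2 a b) 1 T = (if a ∈ T then 1 else 0) + (if b ∈ T then 1 else 0) - 1 := by
  simp only [lvl, y2, Finset.sum_add_distrib, Finset.sum_ite_eq']

theorem wt1 {k : ℕ} (hk : Even k) (k1 : 1 ≤ k) (hN : N = 2 * k) {a b : Fin N} (hab : a ≠ b) : Wt k (y1 a b) 0 where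
  hN := hN
  hk := hk
  k1 := k1
  sum := by
    have h := lvl1 a b Finset.univ
    rw [lvl] at h
    simpa using h
  y1 := fun i => by
    rw [GS.y1]
    split_ifs <;> constructor <;> norm_num
  b1 := fun T => by
    rw [lvl1]
    split_ifs <;> constructor <;> norm_num
  ne := by
    refine ⟨a, b, ?_⟩
    rw [GS.y1, GS.y1, if_pos rfl, if_pos rfl, if_neg hab, if_neg hab.symm]
    norm_num

theorem wt2 {k : ℕ} (hk : Even k) (k1 : 2 ≤ k) (hN : N = 2 * k) {a b : Fin N} (hab : a ≠ b) : Wt k (y2 a b) 1 where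
  hN := hN
  hk := hk
  k1 := by omega
  sum := by
    have h := lvl2 a b Finset.univ
    rw [lvl] at h
    simp only [Finset.mem_univ, if_true] at h
    linarith
  y1 := fun i => by
    rw [GS.y2]
    by_cases h1 : i = a
    · have h2 : i ≠ b := fun h => hab (h1.symm.trans h)
      rw [if_pos h1, if_neg h2]
      norm_num
    · rw [if_neg h1]
      split_ifs <;> constructor <;> norm_num
  b1 := fun T => by
    rw [lvl2]
    split_ifs <;> constructor <;> norm_num
  ne := by
    obtain ⟨c, hc⟩ : ∃ c, c ∉ ({a, b} : Finset (Fin N)) := by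
      by_contra h
      push Not at h
      have h2 : ({a, b} : Finset (Fin N)) = Finset.univ := Finset.eq_univ_of_forall h
      have h3 := congrArg Finset.card h2
      rw [Finset.card_pair hab, Finset.card_univ, Fintype.card_fin] at h3
      omega
    rw [Finset.mem_insert, Finset.mem_singleton, not_or] at hc
    refine ⟨a, c, ?_⟩
    rw [GS.y2, GS.y2, if_pos rfl, if_neg hab, if_neg hc.1, if_neg hc.2]
    norm_num

theorem num_ineq {k s t : ℕ} (hk : 3 ≤ k) (hs : 2 * k - 2 ≤ s) (ht : 2 * (2 * k - 2) ≤ t) :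
    2 * k * (2 * k) < 2 * s * t := by
  have h1 : 2 * (2 * k - 2) * (2 * (2 * k - 2)) ≤ 2 * s * t := Nat.mul_le_mul (by omega) ht
  refine lt_of_lt_of_le ?_ h1
  refine Nat.mul_lt_mul'' ?_ ?_ <;> omega

end GS

open GS

/-- clause 4, the middle exterior power with one negative place -/
theorem sharp_mid (M i : ℕ) (hi : 1 ≤ i) (hM : 2 * i + 2 = M) (he : Even i) :
    ∃ (n : Type) (_ : Fintype n) (_ : DecidableEq n) (Q : Matrix n n ℚ) (P : ℤ → Matrix n n ℂ), IsHW 2 Q {0, 1, 2} P ∧
      (∀ A : Matrix n n ℚ, (∀ p, toC A * P p = P p * toC A) → ∃ c : ℚ, A = c • (1 : Matrix n n ℚ)) ∧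
      (P 2).rank = M.choose (i + 1) ∧ (P 1).rank = M.choose (i + 2) + M.choose i ∧
        ∃ g : GL n ℂ, IsGQ 2 Q g ∧ g ∉ MT {0, 1, 2} P := by
  have hi2 : 2 ≤ i := by
    obtain ⟨j, hj⟩ := he
    omega
  obtain ⟨k, hk⟩ : ∃ k, k = i + 2 := ⟨_, rfl⟩
  have hke : Even k := by
    rw [hk]
    exact he.add even_two
  have hMk : 2 * k - 2 = M := by omega
  let a : Fin (2 * k) := ⟨0, by omega⟩
  let b : Fin (2 * k) := ⟨1, by omega⟩
  have hab : a ≠ b := by
    intro h
    have := congrArg Fin.val h
    simp [a, b] at this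
  have W := wt1 (N := 2 * k) hke (by omega) rfl hab
  have e1 : i + 1 = k - 1 := by omega
  have e2 : i = k - 2 := by omega
  refine W.sharp (s := M.choose (i + 1)) (t := M.choose (i + 2) + M.choose i) ?_ ?_ ?_
  · rw [← hMk, e1, ← cnt_in_out hab (by omega : 1 ≤ k)]
    congr 1
    ext T
    rw [Finset.mem_filter, Finset.mem_filter, lvl1]
    by_cases ha : a ∈ T <;> by_cases hb : b ∈ T <;> simp [ha, hb]
  · have h1 : ((Finset.univ : Finset (Finset (Fin (2 * k)))).filter fun T => T.card = k ∧ lvl (y1 a b) 0 T = 0) =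
        ((Finset.univ : Finset (Finset (Fin (2 * k)))).filter fun T => T.card = k ∧ a ∉ T ∧ b ∉ T) ∪
        ((Finset.univ : Finset (Finset (Fin (2 * k)))).filter fun T => T.card = k ∧ a ∈ T ∧ b ∈ T) := by
      ext T
      rw [Finset.mem_union, Finset.mem_filter, Finset.mem_filter, Finset.mem_filter, lvl1]
      by_cases ha : a ∈ T <;> by_cases hb : b ∈ T <;> simp [ha, hb]
    rw [h1, Finset.card_union_of_disjoint, cnt_out_out hab, cnt_in_in hab (by omega), hMk, ← hk]
    · have : k - 2 = i := by omega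
      rw [this]
    · rw [Finset.disjoint_left]
      intro T h2 h3
      rw [Finset.mem_filter] at h2 h3
      exact h2.2.2.1 h3.2.2.1
  · refine num_ineq (by omega) ?_ ?_
    · rw [hMk]
      exact choose_ge (by omega) (by omega)
    · rw [hMk]
      have h1 : M ≤ M.choose (i + 2) := choose_ge (by omega) (by omega)
      have h2 : M ≤ M.choose i := choose_ge (by omega) (by omega)
      omega

/-- clause 7, the middle exterior power with two negative places -/
theorem sharp_mid2 (k : ℕ) (hk : 4 ≤ k) (he : Even k) :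
    ∃ (n : Type) (_ : Fintype n) (_ : DecidableEq n) (Q : Matrix n n ℚ) (P : ℤ → Matrix n n ℂ), IsHW 2 Q {0, 1, 2} P ∧
      (∀ A : Matrix n n ℚ, (∀ p, toC A * P p = P p * toC A) → ∃ c : ℚ, A = c • (1 : Matrix n n ℚ)) ∧
      (P 2).rank = (2 * k - 2).choose k ∧ (P 1).rank = 2 * (2 * k - 2).choose (k - 1) ∧
        ∃ g : GL n ℂ, IsGQ 2 Q g ∧ g ∉ MT {0, 1, 2} P := by
  let a : Fin (2 * k) := ⟨0, by omega⟩
  let b : Fin (2 * k) := ⟨1, by omega⟩
  have hab : a ≠ b := by
    intro h
    have := congrArg Fin.val h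
    simp [a, b] at this
  have W := wt2 (N := 2 * k) he (by omega) rfl hab
  refine W.sharp (s := (2 * k - 2).choose k) (t := 2 * (2 * k - 2).choose (k - 1)) ?_ ?_ ?_
  · have h0 : (2 * k - 2).choose k = (2 * k - 2).choose (k - 2) := by
      rw [← Nat.choose_symm (by omega : k ≤ 2 * k - 2)]
      congr 1
      omega
    rw [h0, ← cnt_in_in hab (by omega)]
    congr 1
    ext T
    rw [Finset.mem_filter, Finset.mem_filter, lvl2]
    by_cases ha : a ∈ T <;> by_cases hb : b ∈ T <;> simp [ha, hb]
  · have h1 : ((Finset.univ : Finset (Finset (Fin (2 * k)))).filter fun T => T.card = k ∧ lvl (y2 a b) 1 T = 0) =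
        ((Finset.univ : Finset (Finset (Fin (2 * k)))).filter fun T => T.card = k ∧ a ∈ T ∧ b ∉ T) ∪
        ((Finset.univ : Finset (Finset (Fin (2 * k)))).filter fun T => T.card = k ∧ b ∈ T ∧ a ∉ T) := by
      ext T
      rw [Finset.mem_union, Finset.mem_filter, Finset.mem_filter, Finset.mem_filter, lvl2]
      by_cases ha : a ∈ T <;> by_cases hb : b ∈ T <;> simp [ha, hb]
    rw [h1, Finset.card_union_of_disjoint, cnt_in_out hab (by omega), cnt_in_out hab.symm (by omega)]
    · exact (two_mul ((2 * k - 2).choose (k - 1))).symm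
    · rw [Finset.disjoint_left]
      intro T h2 h3
      rw [Finset.mem_filter] at h2 h3
      exact h2.2.2.2 h3.2.2.1
  · refine num_ineq (by omega) ?_ ?_
    · exact choose_ge (by omega) (by omega)
    · exact Nat.mul_le_mul_left 2 (choose_ge (by omega) (by omega))

end MH
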