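import Pool.Agent.Helper90.GS.Fock
import Pool.Agent.Helper90.GS.Count
import Pool.Agent.Helper14.C9.Fin
import Pool.Agent.Helper2.C9.FF

/-!
Project GS (MP_b8862a_ag): Hodge structures of weight two on the middle exterior power with a twisted complement pairing.
-/

set_option linter.unusedSectionVars false
set_option linter.unusedVariables false

open Matrix Module MH

namespace MH.GS

section diag

variable {ι : Type*} [Fintype ι] [DecidableEq ι]

theorem op_diag (f : ι → ι) (c d : ι → ℚ) : op f c * diagonal d = op f (fun T => c T * d T) := by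
  rw [← op_id, op_mul]

theorem diag_op (f : ι → ι) (c d : ι → ℚ) : diagonal d * op f c = op f (fun T => d (f T) * c T) := by
  rw [← op_id, op_mul]

end diag

variable {N : ℕ}

/-- the projection to the subsets with `k` elements -/
def pe (N k : ℕ) : Matrix (Finset (Fin N)) (Finset (Fin N)) ℚ := diagonal fun T => if T.card = k then 1 else 0

/-- the traceless generators -/
def LL (k : ℕ) (a : Fin N × Fin N) : Matrix (Finset (Fin N)) (Finset (Fin N)) ℚ :=
  (rho a.1 a.2 - (if a.1 = a.2 then (1 / 2 : ℚ) • (1 : Matrix _ _ ℚ) else 0)) * pe N k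

/-- the exchange -/
def MM (N : ℕ) : Matrix (Fin N × Fin N) (Fin N × Fin N) ℚ := Matrix.of fun a b => if b = a.swap then 1 else 0

/-- the level of a subset -/
def lvl (y : Fin N → ℤ) (m : ℤ) (T : Finset (Fin N)) : ℤ := ∑ t ∈ T, y t - m

/-- the numerical conditions on the weights -/
structure Wt (k : ℕ) (y : Fin N → ℤ) (m : ℤ) : Prop where
  hN : N = 2 * k
  hk : Even k
  k1 : 1 ≤ k
  sum : ∑ t, y t = 2 * m
  y1 : ∀ i, -1 ≤ y i ∧ y i ≤ 1
  b1 : ∀ T, -1 ≤ lvl y m T ∧ lvl y m T ≤ 1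
  ne : ∃ i j, y i ≠ y j

/-- the sign of a weight or of a level -/
def sn (u : ℤ) : ℚ := if u = 0 then 1 else -1

theorem sn_sq (u : ℤ) : sn u * sn u = 1 := by
  rw [sn]
  split_ifs <;> norm_num

theorem sn_add {u w : ℤ} (hu : -1 ≤ u ∧ u ≤ 1) (hw : -1 ≤ w ∧ w ≤ 1) (h : -1 ≤ u + w ∧ u + w ≤ 1) :
    sn (u + w) = sn w * sn u := by
  rw [sn, sn, sn]
  by_cases h1 : u = 0
  · by_cases h2 : w = 0
    · simp [h1, h2]
    · rw [if_neg (by omega), if_neg h2, if_pos h1]
      norm_num
  · by_cases h2 : w = 0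
    · rw [if_neg (by omega), if_pos h2, if_neg h1]
      norm_num
    · rw [if_pos (by omega), if_neg h2, if_neg h1]
      norm_num

theorem sn_neg (u : ℤ) : sn (-u) = sn u := by
  rw [sn, sn]
  by_cases h : u = 0
  · rw [h, neg_zero]
  · rw [if_neg h, if_neg (by omega)]

/-- the matrix of the signs of the levels -/
def DD (y : Fin N → ℤ) (m : ℤ) : Matrix (Finset (Fin N)) (Finset (Fin N)) ℚ := diagonal fun T => sn (lvl y m T)

theorem DD_sq (y : Fin N → ℤ) (m : ℤ) : DD y m * DD y m = 1 := by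
  rw [DD, Matrix.diagonal_mul_diagonal, one_eq_diag]
  congr 1
  ext T
  exact sn_sq _

theorem rho_op (i j : Fin N) : rho i j = op (fun T => insert i (T.erase j))
    (fun T => (if i ∈ T.erase j then 0 else sg i (T.erase j)) * (if j ∈ T then sg j T else 0)) := by
  rw [rho, cr, an, op_mul]

theorem rho_ne {i j : Fin N} {T : Finset (Fin N)}
    (h : (if i ∈ T.erase j then 0 else sg i (T.erase j)) * (if j ∈ T then sg j T else 0) ≠ (0 : ℚ)) :
    i ∉ T.erase j ∧ j ∈ T := by
  constructor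
  · intro h1
    rw [if_pos h1, zero_mul] at h
    exact h rfl
  · by_contra h1
    rw [if_neg h1, mul_zero] at h
    exact h rfl

/-- diagonal matrices and the generators -/
theorem diag_rho {i j : Fin N} (d : Finset (Fin N) → ℚ) (e : ℚ)
    (h : ∀ T : Finset (Fin N), i ∉ T.erase j → j ∈ T → d (insert i (T.erase j)) = e * d T) :
    diagonal d * rho i j = e • (rho i j * diagonal d) := by
  rw [rho_op, diag_op, op_diag]
  ext S T
  rw [op_apply, Matrix.smul_apply, op_apply, smul_eq_mul]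
  by_cases h1 : S = insert i (T.erase j)
  · rw [if_pos h1, if_pos h1]
    by_cases h2 : (if i ∈ T.erase j then 0 else sg i (T.erase j)) * (if j ∈ T then sg j T else 0) = (0 : ℚ)
    · rw [h2, mul_zero, zero_mul, mul_zero]
    · obtain ⟨h3, h4⟩ := rho_ne h2
      rw [h T h3 h4]
      ring
  · rw [if_neg h1, if_neg h1, mul_zero]

theorem rho_pe (k : ℕ) (i j : Fin N) : rho i j * pe N k = pe N k * rho i j := by
  rw [pe, diag_rho (i := i) (j := j) _ 1, one_smul]
  intro T h1 h2
  rw [Finset.card_insert_of_notMem h1, Finset.card_erase_of_mem h2, one_mul]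
  have h3 : 1 ≤ T.card := Finset.card_pos.2 ⟨j, h2⟩
  rw [Nat.sub_add_cancel h3]

theorem pe_sq (k : ℕ) : pe N k * pe N k = pe N k := by
  rw [pe, Matrix.diagonal_mul_diagonal]
  congr 1
  ext T
  split_ifs <;> norm_num

theorem lvl_move (y : Fin N → ℤ) (m : ℤ) {i j : Fin N} {T : Finset (Fin N)} (h1 : i ∉ T.erase j) (h2 : j ∈ T) :
    lvl y m (insert i (T.erase j)) = lvl y m T + (y i - y j) := by
  rw [lvl, lvl, Finset.sum_insert h1]
  have h3 := Finset.sum_erase_add T y h2
  rw [← h3]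
  ring

theorem lvl_erase (y : Fin N → ℤ) (m : ℤ) {j : Fin N} {T : Finset (Fin N)} (h2 : j ∈ T) :
    lvl y m T = lvl y m (T.erase j) + y j := by
  rw [lvl, lvl]
  have h3 := Finset.sum_erase_add T y h2
  rw [← h3]
  ring

theorem lvl_insert (y : Fin N → ℤ) (m : ℤ) {j : Fin N} {T : Finset (Fin N)} (h2 : j ∉ T) :
    lvl y m (insert j T) = lvl y m T + y j := by
  rw [lvl, lvl, Finset.sum_insert h2]
  ring

variable {k : ℕ} {y : Fin N → ℤ} {m : ℤ}

theorem Wt.compl (W : Wt k y m) (T : Finset (Fin N)) : lvl y m Tᶜ = -lvl y m T := by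
  have h := Finset.sum_add_sum_compl T y
  rw [W.sum] at h
  rw [lvl, lvl]
  linarith

theorem Wt.DD_rho (W : Wt k y m) (i j : Fin N) : DD y m * rho i j = (sn (y i) * sn (y j)) • (rho i j * DD y m) := by
  rw [DD]
  refine diag_rho _ _ fun T h1 h2 => ?_
  have h3 := sn_add (W.b1 (T.erase j)) (W.y1 j) (by rw [← lvl_erase y m h2]; exact W.b1 T)
  rw [← lvl_erase y m h2] at h3
  have h4 := sn_add (W.b1 (T.erase j)) (W.y1 i) (by rw [← lvl_insert y m h1]; exact W.b1 _)
  rw [← lvl_insert y m h1] at h4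
  rw [h4, h3]
  have h5 := sn_sq (y j)
  linear_combination (-(sn (y i) * sn (lvl y m (T.erase j)))) * h5

theorem KK_diag (N : ℕ) (d : Finset (Fin N) → ℚ) (h : ∀ T, d Tᶜ = d T) : KK N * diagonal d = diagonal d * KK N := by
  rw [KK, op_diag, diag_op]
  refine op_congr (fun T => ?_) fun _ _ => rfl
  rw [h, mul_comm]

theorem Wt.KK_DD (W : Wt k y m) : KK N * DD y m = DD y m * KK N := by
  rw [DD]
  refine KK_diag N _ fun T => ?_
  rw [W.compl, sn_neg]

theorem Wt.card_compl (W : Wt k y m) (T : Finset (Fin N)) : Tᶜ.card = k ↔ T.card = k := by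
  rw [Finset.card_compl, Fintype.card_fin]
  have h1 := Finset.card_le_univ T
  rw [Fintype.card_fin] at h1
  have := W.hN
  omega

theorem Wt.KK_pe (W : Wt k y m) : KK N * pe N k = pe N k * KK N := by
  rw [pe]
  refine KK_diag N _ fun T => ?_
  by_cases h : T.card = k
  · rw [if_pos h, if_pos ((W.card_compl T).2 h)]
  · rw [if_neg h, if_neg fun h2 => h ((W.card_compl T).1 h2)]

theorem DD_pe : DD y m * pe N k = pe N k * DD y m := by
  rw [DD, pe, Matrix.diagonal_mul_diagonal, Matrix.diagonal_mul_diagonal]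
  congr 1
  ext T
  exact mul_comm _ _

/-- the twist -/
def SS (y : Fin N → ℤ) (m : ℤ) : Matrix (Finset (Fin N)) (Finset (Fin N)) ℚ := KK N * DD y m

theorem Wt.SS_sq (W : Wt k y m) : SS y m * SS y m = 1 := by
  calc SS y m * SS y m = KK N * (DD y m * KK N) * DD y m := by simp only [SS, mul_assoc]
    _ = (KK N * KK N) * (DD y m * DD y m) := by rw [← W.KK_DD]; simp only [mul_assoc]
    _ = 1 := by rw [KK_sq W.hN W.hk, DD_sq, mul_one]

theorem DD_tr : (DD y m)ᵀ = DD y m := by rw [DD, Matrix.diagonal_transpose]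

theorem pe_tr : (pe N k)ᵀ = pe N k := by rw [pe, Matrix.diagonal_transpose]

theorem Wt.SS_tr (W : Wt k y m) : (SS y m)ᵀ = SS y m := by
  rw [SS, Matrix.transpose_mul, DD_tr, KK_tr W.hN W.hk, W.KK_DD]

theorem Wt.SK (W : Wt k y m) : SS y m * KK N = KK N * SS y m := by
  rw [SS, mul_assoc, ← W.KK_DD]

theorem Wt.KS (W : Wt k y m) : KK N * SS y m = DD y m := by
  rw [SS, ← mul_assoc, KK_sq W.hN W.hk, one_mul]

theorem Wt.pe_SS (W : Wt k y m) : pe N k * SS y m = SS y m * pe N k := by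
  rw [SS, ← mul_assoc, ← W.KK_pe, mul_assoc, mul_assoc, DD_pe]

theorem LL_def (k : ℕ) (i j : Fin N) :
    LL k (i, j) = (rho i j - (if i = j then (1 / 2 : ℚ) • (1 : Matrix _ _ ℚ) else 0)) * pe N k := rfl

theorem Wt.KK_LL (W : Wt k y m) (a : Fin N × Fin N) : KK N * LL k a = -(LL k a.swap * KK N) := by
  obtain ⟨i, j⟩ := a
  rw [Prod.swap_prod_mk, LL_def, LL_def, mul_assoc, ← W.KK_pe, ← mul_assoc, ← mul_assoc, ← neg_mul]
  congr 1
  rw [mul_sub, KK_rho W.hN W.hk, sub_mul, sub_mul]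
  by_cases h : i = j
  · rw [if_pos h, if_pos h, if_pos h.symm, mul_smul_comm, mul_one, smul_mul_assoc, one_mul]
    have h1 : KK N = (1 / 2 : ℚ) • KK N + (1 / 2 : ℚ) • KK N := by
      rw [← add_smul]
      norm_num
    nth_rewrite 1 [h1]
    abel
  · rw [if_neg h, if_neg h, if_neg (Ne.symm h)]
    simp

theorem Wt.DD_LL (W : Wt k y m) (a : Fin N × Fin N) :
    DD y m * LL k a = (sn (y a.1) * sn (y a.2)) • (LL k a * DD y m) := by
  obtain ⟨i, j⟩ := a
  rw [LL_def, ← mul_assoc, mul_assoc _ (pe N k) (DD y m), ← DD_pe, ← mul_assoc, ← smul_mul_assoc]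
  congr 1
  rw [mul_sub, W.DD_rho, sub_mul, smul_sub]
  congr 1
  by_cases h : i = j
  · rw [if_pos h, h, sn_sq, one_smul, mul_smul_comm, mul_one, smul_mul_assoc, one_mul]
  · rw [if_neg h, mul_zero, zero_mul, smul_zero]

theorem Wt.SS_LL (W : Wt k y m) (a : Fin N × Fin N) :
    SS y m * LL k a * SS y m = -((sn (y a.1) * sn (y a.2)) • LL k a.swap) := by
  have h1 : SS y m * LL k a = (sn (y a.1) * sn (y a.2)) • (KK N * LL k a * DD y m) := by
    rw [SS, mul_assoc, W.DD_LL, mul_smul_comm, ← mul_assoc]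
  rw [h1, W.KK_LL, smul_mul_assoc, ← smul_neg]
  congr 1
  have h2 : DD y m * SS y m = KK N := by
    rw [SS, W.KK_DD, ← mul_assoc, DD_sq, one_mul]
  rw [neg_mul, neg_mul, mul_assoc _ (DD y m), h2, mul_assoc, KK_sq W.hN W.hk, mul_one]

/-! ### brackets -/

theorem LL_br (k : ℕ) (a b i j : Fin N) : rho a b * LL k (i, j) - LL k (i, j) * rho a b =
    (if b = i then LL k (a, j) else 0) - (if j = a then LL k (i, b) else 0) := by
  have h1 : LL k (i, j) * rho a b =
      (rho i j - (if i = j then (1 / 2 : ℚ) • (1 : Matrix _ _ ℚ) else 0)) * rho a b * pe N k := by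
    rw [LL_def, mul_assoc, ← rho_pe, ← mul_assoc]
  rw [h1, LL_def, ← mul_assoc, ← sub_mul]
  have h2 : rho a b * (rho i j - (if i = j then (1 / 2 : ℚ) • (1 : Matrix _ _ ℚ) else 0)) -
      (rho i j - (if i = j then (1 / 2 : ℚ) • (1 : Matrix _ _ ℚ) else 0)) * rho a b =
      rho a b * rho i j - rho i j * rho a b := by
    by_cases h : i = j
    · rw [if_pos h, mul_sub, sub_mul, mul_smul_comm, smul_mul_assoc, mul_one, one_mul]
      abel
    · rw [if_neg h, sub_zero]
  rw [h2, rho_br]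
  by_cases h3 : b = i
  · by_cases h4 : j = a
    · subst h3 h4
      rw [if_pos rfl, if_pos rfl, if_pos rfl, if_pos rfl, LL_def, LL_def, if_pos rfl, if_pos rfl, ← sub_mul]
      congr 1
      abel
    · rw [if_pos h3, if_pos h3, if_neg h4, if_neg h4, LL_def, if_neg (Ne.symm h4)]
      simp only [sub_zero]
  · by_cases h4 : j = a
    · rw [if_neg h3, if_neg h3, if_pos h4, if_pos h4, LL_def, if_neg (Ne.symm h3), zero_sub, zero_sub, sub_zero, neg_mul]
    · rw [if_neg h3, if_neg h3, if_neg h4, if_neg h4, sub_zero, zero_mul]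

/-- the matrix of the level -/
def HH (k : ℕ) (y : Fin N → ℤ) (m : ℤ) : Matrix (Finset (Fin N)) (Finset (Fin N)) ℚ :=
  diagonal fun T => if T.card = k then (lvl y m T : ℚ) else 0

theorem HH_eq : HH k y m = (diagonal fun T => (lvl y m T : ℚ)) * pe N k := by
  rw [HH, pe, Matrix.diagonal_mul_diagonal]
  congr 1
  ext T
  split_ifs <;> simp

theorem lvl_rho (i j : Fin N) : (diagonal fun T => (lvl y m T : ℚ)) * rho i j - rho i j * (diagonal fun T => (lvl y m T : ℚ)) =
    ((y i : ℚ) - y j) • rho i j := by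
  rw [rho_op, diag_op, op_diag]
  ext S T
  rw [Matrix.sub_apply, op_apply, op_apply, Matrix.smul_apply, op_apply, smul_eq_mul]
  by_cases h1 : S = insert i (T.erase j)
  · rw [if_pos h1, if_pos h1, if_pos h1]
    by_cases h2 : (if i ∈ T.erase j then 0 else sg i (T.erase j)) * (if j ∈ T then sg j T else 0) = (0 : ℚ)
    · rw [h2]
      ring
    · obtain ⟨h3, h4⟩ := rho_ne h2
      rw [lvl_move y m h3 h4]
      push_cast
      ring
  · rw [if_neg h1, if_neg h1, if_neg h1]
    ring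

theorem HH_LL (a : Fin N × Fin N) : HH k y m * LL k a - LL k a * HH k y m = ((y a.1 : ℚ) - y a.2) • LL k a := by
  obtain ⟨i, j⟩ := a
  obtain ⟨Dg, hD⟩ : ∃ Dg, Dg = (diagonal fun T : Finset (Fin N) => (lvl y m T : ℚ)) := ⟨_, rfl⟩
  have h0 : Dg * pe N k = pe N k * Dg := by
    rw [hD, pe, Matrix.diagonal_mul_diagonal, Matrix.diagonal_mul_diagonal]
    congr 1
    ext T
    exact mul_comm _ _
  have h1 := lvl_rho (y := y) (m := m) i j
  rw [← hD] at h1
  rw [HH_eq, ← hD, LL_def]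
  obtain ⟨u, hu⟩ : ∃ u : Matrix (Finset (Fin N)) (Finset (Fin N)) ℚ,
      u = rho i j - (if i = j then (1 / 2 : ℚ) • (1 : Matrix _ _ ℚ) else 0) := ⟨_, rfl⟩
  have h2 : u * pe N k = pe N k * u := by
    rw [hu, sub_mul, mul_sub, rho_pe]
    congr 1
    split_ifs
    · rw [mul_smul_comm, smul_mul_assoc, mul_one, one_mul]
    · rw [mul_zero, zero_mul]
  have h3 : Dg * u - u * Dg = ((y i : ℚ) - y j) • u := by
    rw [hu]
    by_cases h : i = j
    · subst h
      rw [if_pos rfl, mul_sub, sub_mul, mul_smul_comm, smul_mul_assoc, mul_one, one_mul, sub_self, zero_smul]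
      rw [sub_self, zero_smul] at h1
      rw [← h1]
      abel
    · rw [if_neg h, sub_zero]
      exact h1
  rw [← hu]
  calc Dg * pe N k * (u * pe N k) - u * pe N k * (Dg * pe N k) =
        (Dg * u - u * Dg) * (pe N k * pe N k) := by
          rw [mul_assoc Dg, ← mul_assoc (pe N k) u, ← h2, mul_assoc u (pe N k) (Dg * pe N k),
            ← mul_assoc (pe N k) Dg, ← h0, sub_mul]
          simp only [mul_assoc]
    _ = _ := by rw [h3, pe_sq, smul_mul_assoc]

end MH.GS
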