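import Pool.Agent.Helper90.GS.Mid

/-!
Project GS (MP_b8862a_ag): the contraction for the middle exterior power.
-/

set_option linter.unusedSectionVars false
set_option linter.unusedVariables false

open Matrix Module MH

namespace MH.GS

variable {N : ℕ}

theorem toC_zero90 {ι : Type*} : toC (0 : Matrix ι ι ℚ) = 0 := by
  ext i j
  simp [toC]

theorem toC_sum90 {ι μ : Type*} [Fintype μ] (r : μ → ℚ) (L : μ → Matrix ι ι ℚ) :
    ∑ c, ((r c : ℚ) : ℂ) • toC (L c) = toC (∑ c, r c • L c) := by
  ext i j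
  simp only [toC, Matrix.sum_apply, Matrix.smul_apply, Matrix.map_apply, smul_eq_mul, map_sum, map_mul, eq_ratCast]

theorem toC_sub90 {ι : Type*} (A B : Matrix ι ι ℚ) : toC (A - B) = toC A - toC B := by
  ext i j
  simp [toC]

theorem toC_add90 {ι : Type*} (A B : Matrix ι ι ℚ) : toC (A + B) = toC A + toC B := by
  ext i j
  simp [toC]

theorem toC_mul90 {ι : Type*} [Fintype ι] (A B : Matrix ι ι ℚ) : toC (A * B) = toC A * toC B := by
  unfold toC
  rw [Matrix.map_mul]

theorem mul_MM {μ : Type*} (A : Matrix μ (Fin N × Fin N) ℚ) (c : μ) (d : Fin N × Fin N) :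
    (A * MM N) c d = A c d.swap := by
  rw [Matrix.mul_apply]
  simp only [MM, Matrix.of_apply]
  rw [Finset.sum_eq_single d.swap]
  · rw [Prod.swap_swap, if_pos rfl, mul_one]
  · intro e _ he
    rw [if_neg, mul_zero]
    intro h
    exact he (by rw [h, Prod.swap_swap])
  · intro h
    exact absurd (Finset.mem_univ _) h

theorem MM_mul {μ : Type*} (A : Matrix (Fin N × Fin N) μ ℚ) (c : Fin N × Fin N) (d : μ) :
    (MM N * A) c d = A c.swap d := by
  rw [Matrix.mul_apply]
  simp only [MM, Matrix.of_apply]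
  rw [Finset.sum_eq_single c.swap]
  · rw [if_pos rfl, one_mul]
  · intro e _ he
    rw [if_neg he, zero_mul]
  · intro h
    exact absurd (Finset.mem_univ _) h

/-- the adjoint action of `rho a b` on the generators -/
def Dr (a b : Fin N) : Matrix (Fin N × Fin N) (Fin N × Fin N) ℚ := Matrix.of fun c d =>
  (if b = d.1 ∧ c = (a, d.2) then 1 else 0) - (if d.2 = a ∧ c = (d.1, b) then 1 else 0)

theorem Dr_sum (k : ℕ) (a b : Fin N) (d : Fin N × Fin N) :
    ∑ c, Dr a b c d • LL k c = (if b = d.1 then LL k (a, d.2) else 0) - (if d.2 = a then LL k (d.1, b) else 0) := by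
  simp only [Dr, Matrix.of_apply, sub_smul, Finset.sum_sub_distrib]
  congr 1
  · by_cases h : b = d.1
    · simp only [h, true_and, if_true]
      rw [Finset.sum_eq_single (a, d.2)]
      · rw [if_pos rfl, one_smul]
      · intro e _ he
        rw [if_neg he, zero_smul]
      · intro h2
        exact absurd (Finset.mem_univ _) h2
    · simp [h]
  · by_cases h : d.2 = a
    · simp only [h, true_and, if_true]
      rw [Finset.sum_eq_single (d.1, b)]
      · rw [if_pos rfl, one_smul]
      · intro e _ he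
        rw [if_neg he, zero_smul]
      · intro h2
        exact absurd (Finset.mem_univ _) h2
    · simp [h]

theorem Dr_MM (a b : Fin N) : Dr a b * MM N + MM N * (Dr a b)ᵀ = 0 := by
  ext c d
  rw [Matrix.add_apply, mul_MM, MM_mul, Matrix.transpose_apply, Matrix.zero_apply]
  simp only [Dr, Matrix.of_apply, Prod.fst_swap, Prod.snd_swap]
  have e1 : (b = d.2 ∧ c = (a, d.1)) ↔ (c.1 = a ∧ d = (c.2, b)) := by
    constructor
    · rintro ⟨h1, h2⟩
      refine ⟨by rw [h2], Prod.ext ?_ h1.symm⟩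
      rw [h2]
    · rintro ⟨h1, h2⟩
      refine ⟨by rw [h2], Prod.ext h1 ?_⟩
      rw [h2]
  have e2 : (d.1 = a ∧ c = (d.2, b)) ↔ (b = c.2 ∧ d = (a, c.1)) := by
    constructor
    · rintro ⟨h1, h2⟩
      refine ⟨by rw [h2], Prod.ext h1 ?_⟩
      rw [h2]
    · rintro ⟨h1, h2⟩
      refine ⟨by rw [h2], Prod.ext ?_ h1.symm⟩
      rw [h2]
  simp only [e1, e2]
  ring

/-- the contraction -/
noncomputable def FM (N k : ℕ) : Matrix (Finset (Fin N)) (Finset (Fin N)) ℂ →ₗ[ℂ] Matrix (Finset (Fin N)) (Finset (Fin N)) ℂ :=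
  C9.FF (MM N) (LL k)

theorem FM_rho (k : ℕ) (a b : Fin N) (Y : Matrix (Finset (Fin N)) (Finset (Fin N)) ℂ) :
    FM N k (toC (rho a b) * Y - Y * toC (rho a b)) = toC (rho a b) * FM N k Y - FM N k Y * toC (rho a b) := by
  refine C9.FF_br (toC (Dr a b)) (fun d => ?_) ?_ Y
  · have h1 : ∀ c, toC (Dr a b) c d = ((Dr a b c d : ℚ) : ℂ) := fun c => rfl
    simp only [h1]
    rw [toC_sum90, Dr_sum, ← toC_mul90, ← toC_mul90, ← toC_sub90]
    congr 1
    obtain ⟨i, j⟩ := d
    exact LL_br k a b i j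
  · rw [← toC_mul90, show (toC (Dr a b))ᵀ = toC (Dr a b)ᵀ from rfl, ← toC_mul90, ← toC_add90, Dr_MM, toC_zero90]

variable {k : ℕ} {y : Fin N → ℤ} {m : ℤ}

theorem FM_HH (Y : Matrix (Finset (Fin N)) (Finset (Fin N)) ℂ) :
    FM N k (toC (HH k y m) * Y - Y * toC (HH k y m)) = toC (HH k y m) * FM N k Y - FM N k Y * toC (HH k y m) := by
  obtain ⟨Dt, hDt⟩ : ∃ Dt : Matrix (Fin N × Fin N) (Fin N × Fin N) ℚ,
      Dt = diagonal fun a => ((y a.1 : ℚ) - y a.2) := ⟨_, rfl⟩
  refine C9.FF_br (toC Dt) (fun d => ?_) ?_ Y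
  · have h1 : ∀ c, toC Dt c d = ((Dt c d : ℚ) : ℂ) := fun c => rfl
    simp only [h1]
    rw [toC_sum90, ← toC_mul90, ← toC_mul90, ← toC_sub90]
    congr 1
    rw [HH_LL, hDt, Finset.sum_eq_single d]
    · rw [Matrix.diagonal_apply_eq]
    · intro e _ he
      rw [Matrix.diagonal_apply_ne _ he, zero_smul]
    · intro h2
      exact absurd (Finset.mem_univ _) h2
  · rw [← toC_mul90, show (toC Dt)ᵀ = toC Dtᵀ from rfl, ← toC_mul90, ← toC_add90]
    have h1 : Dt * MM N + MM N * Dtᵀ = 0 := by
      ext c d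
      rw [Matrix.add_apply, mul_MM, MM_mul, Matrix.transpose_apply, Matrix.zero_apply, hDt]
      by_cases h : c = d.swap
      · have h2 : d = c.swap := by rw [h, Prod.swap_swap]
        rw [← h, ← h2, Matrix.diagonal_apply_eq, Matrix.diagonal_apply_eq, h]
        simp only [Prod.fst_swap, Prod.snd_swap]
        ring
      · have h2 : d ≠ c.swap := fun h3 => h (by rw [h3, Prod.swap_swap])
        rw [Matrix.diagonal_apply_ne _ h, Matrix.diagonal_apply_ne _ h2, add_zero]
    rw [h1, toC_zero90]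

theorem Wt.FM_SS (W : Wt k y m) (Y : Matrix (Finset (Fin N)) (Finset (Fin N)) ℂ) :
    FM N k (toC (SS y m) * Y * toC (SS y m)) = toC (SS y m) * FM N k Y * toC (SS y m) := by
  obtain ⟨St, hSt⟩ : ∃ St : Matrix (Fin N × Fin N) (Fin N × Fin N) ℚ,
      St = Matrix.of fun c a => if c = a.swap then -(sn (y a.1) * sn (y a.2)) else 0 := ⟨_, rfl⟩
  have hap : ∀ c a, St c a = if c = a.swap then -(sn (y a.1) * sn (y a.2)) else 0 := by
    intro c a
    rw [hSt, Matrix.of_apply]
  refine C9.FF_conj W.SS_sq St (fun a => ?_) ?_ ?_ Y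
  · rw [W.SS_LL, Finset.sum_eq_single a.swap]
    · rw [hap, if_pos rfl, neg_smul]
    · intro e _ he
      rw [hap, if_neg he, zero_smul]
    · intro h2
      exact absurd (Finset.mem_univ _) h2
  · ext c d
    rw [mul_MM, MM_mul, Matrix.transpose_apply, hap, hap, Prod.swap_swap, Prod.swap_swap]
    by_cases h : c = d
    · rw [if_pos h, if_pos h.symm, h]
    · rw [if_neg h, if_neg (Ne.symm h)]
  · ext c d
    rw [Matrix.mul_apply, Finset.sum_eq_single d.swap]
    · rw [hap, hap, if_pos rfl, Prod.swap_swap, Prod.fst_swap, Prod.snd_swap]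
      by_cases h : c = d
      · rw [if_pos h, h, Matrix.one_apply_eq]
        have h1 := sn_sq (y d.1)
        have h2 := sn_sq (y d.2)
        linear_combination (sn (y d.2) * sn (y d.2)) * h1 + h2
      · rw [if_neg h, zero_mul, Matrix.one_apply_ne h]
    · intro e _ he
      rw [hap e d, if_neg he, mul_zero]
    · intro h2
      exact absurd (Finset.mem_univ _) h2

/-! ### the value at the level operator -/

theorem rho_diag_zero {i j : Fin N} (h : i ≠ j) (T : Finset (Fin N)) : rho i j T T = 0 := by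
  rw [rho_op, op_apply]
  split_ifs with h1 h2 h3
  · exact zero_mul _
  · exact zero_mul _
  · exfalso
    have h4 : i ∈ T := by
      rw [h1]
      exact Finset.mem_insert_self _ _
    exact h2 (Finset.mem_erase.2 ⟨h, h4⟩)
  · exact mul_zero _
  · rfl

theorem LL_diag (k : ℕ) (i : Fin N) :
    LL k (i, i) = diagonal fun T => ((if i ∈ T then 1 else 0) - 1 / 2) * (if T.card = k then 1 else 0) := by
  rw [LL_def, if_pos rfl, rho, cr_an, pe, one_eq_diag, ← Matrix.diagonal_smul, Matrix.diagonal_sub,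
    Matrix.diagonal_mul_diagonal]
  congr 1
  ext T
  simp

/-- the traces -/
def bb (k : ℕ) (y : Fin N → ℤ) (m : ℤ) (i : Fin N) : ℚ :=
  ∑ T : Finset (Fin N), (if T.card = k then ((if i ∈ T then 1 else 0) - 1 / 2) * (lvl y m T : ℚ) else 0)

theorem tr_LL (i j : Fin N) : (LL k (i, j) * HH k y m).trace = if i = j then bb k y m i else 0 := by
  by_cases h : i = j
  · subst h
    rw [if_pos rfl, LL_diag, HH, Matrix.diagonal_mul_diagonal, Matrix.trace_diagonal, bb]
    refine Finset.sum_congr rfl fun T _ => ?_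
    split_ifs <;> ring
  · rw [if_neg h, LL_def, if_neg h, sub_zero, mul_assoc, HH, pe, Matrix.diagonal_mul_diagonal, Matrix.trace]
    refine Finset.sum_eq_zero fun T _ => ?_
    rw [Matrix.diag_apply, Matrix.mul_diagonal, rho_diag_zero h, zero_mul]

theorem sum_level (F : Finset (Finset (Fin N))) :
    ∑ T ∈ F, (∑ t ∈ T, (y t : ℚ)) = ∑ l, ((F.filter fun T => l ∈ T).card : ℚ) * y l := by
  have h1 : ∀ T : Finset (Fin N), ∑ t ∈ T, (y t : ℚ) = ∑ l, if l ∈ T then (y l : ℚ) else 0 := by
    intro T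
    rw [Finset.sum_ite_mem, Finset.univ_inter]
  simp only [h1]
  rw [Finset.sum_comm]
  refine Finset.sum_congr rfl fun l _ => ?_
  rw [← Finset.sum_filter, Finset.sum_const, nsmul_eq_mul]

theorem Wt.k2 (W : Wt k y m) : 2 ≤ k := by
  obtain ⟨j, hj⟩ := W.hk
  have := W.k1
  omega

theorem Wt.u_eq (W : Wt k y m) (i : Fin N) :
    ∑ T ∈ (Finset.univ : Finset (Finset (Fin N))).filter (fun T => T.card = k ∧ i ∈ T), (lvl y m T : ℚ) =
      ((N - 2).choose (k - 1) : ℚ) * y i + (2 * m * ((N - 2).choose (k - 2) : ℚ) - m * ((N - 1).choose (k - 1) : ℚ)) := by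
  have h1 : ∀ T : Finset (Fin N), (lvl y m T : ℚ) = ∑ t ∈ T, (y t : ℚ) - m := by
    intro T
    rw [lvl]
    push_cast
    ring
  simp only [h1]
  rw [Finset.sum_sub_distrib, sum_level, Finset.sum_const, cnt_in i W.k1]
  have h2 : ∀ l, (((Finset.univ : Finset (Finset (Fin N))).filter (fun T => T.card = k ∧ i ∈ T)).filter
      fun T => l ∈ T).card = if l = i then (N - 1).choose (k - 1) else (N - 2).choose (k - 2) := by
    intro l
    rw [Finset.filter_filter]
    by_cases h : l = i
    · subst h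
      rw [if_pos rfl, ← cnt_in l W.k1]
      congr 1
      ext T
      simp only [Finset.mem_filter, Finset.mem_univ, true_and]
      tauto
    · rw [if_neg h, ← cnt_in_in (Ne.symm h) W.k2]
      congr 1
      ext T
      simp only [Finset.mem_filter, Finset.mem_univ, true_and]
      tauto
  simp only [h2]
  have h3 : ∑ l, ((if l = i then (N - 1).choose (k - 1) else (N - 2).choose (k - 2) : ℕ) : ℚ) * y l =
      ((N - 2).choose (k - 2) : ℚ) * ∑ l, (y l : ℚ) + (((N - 1).choose (k - 1) : ℚ) - (N - 2).choose (k - 2)) * y i := by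
    have h4 : ∀ l, ((if l = i then (N - 1).choose (k - 1) else (N - 2).choose (k - 2) : ℕ) : ℚ) * y l =
        ((N - 2).choose (k - 2) : ℚ) * y l +
          (if l = i then (((N - 1).choose (k - 1) : ℚ) - (N - 2).choose (k - 2)) * y l else 0) := by
      intro l
      split_ifs <;> ring
    rw [Finset.sum_congr rfl fun l _ => h4 l, Finset.sum_add_distrib, ← Finset.mul_sum]
    congr 1
    rw [Finset.sum_ite_eq' Finset.univ i]
    simp
  have h5 : ∑ l, (y l : ℚ) = 2 * m := by
    have := W.sum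
    exact_mod_cast this
  have h6 : ((N - 1).choose (k - 1) : ℚ) = (N - 2).choose (k - 2) + (N - 2).choose (k - 1) := by
    have hN := W.hN
    have hk2 := W.k2
    obtain ⟨a, ha⟩ : ∃ a, N = a + 2 := ⟨N - 2, by omega⟩
    obtain ⟨b, hb⟩ : ∃ b, k = b + 2 := ⟨k - 2, by omega⟩
    rw [ha, hb, show a + 2 - 1 = a + 1 by omega, show b + 2 - 1 = b + 1 by omega, Nat.choose_succ_succ']
    push_cast
    rfl
  rw [h3, h5, nsmul_eq_mul, h6]
  ring

theorem Wt.bb_eq (W : Wt k y m) : ∃ d : ℚ, ∀ i, bb k y m i = ((N - 2).choose (k - 1) : ℚ) * y i + d := by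
  refine ⟨(2 * m * ((N - 2).choose (k - 2) : ℚ) - m * ((N - 1).choose (k - 1) : ℚ)) -
    1 / 2 * ∑ T : Finset (Fin N), (if T.card = k then (lvl y m T : ℚ) else 0), fun i => ?_⟩
  have h1 := W.u_eq i
  rw [Finset.sum_filter] at h1
  rw [bb, add_sub, ← h1, Finset.mul_sum, ← Finset.sum_sub_distrib]
  refine Finset.sum_congr rfl fun T _ => ?_
  by_cases h2 : T.card = k
  · by_cases h3 : i ∈ T
    · simp only [h2, h3, and_self, if_true]
      ring
    · simp only [h2, h3, and_false, if_true, if_false]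
      ring
  · simp only [h2, false_and, if_false]
    ring

theorem Wt.contr (W : Wt k y m) :
    ∑ a, ∑ b, (MM N a b * (LL k a * HH k y m).trace) • LL k b = ((N - 2).choose (k - 1) : ℚ) • HH k y m := by
  have e1 : ∀ a : Fin N × Fin N, ∑ b, (MM N a b * (LL k a * HH k y m).trace) • LL k b =
      (LL k a * HH k y m).trace • LL k a.swap := by
    intro a
    rw [Finset.sum_eq_single a.swap]
    · rw [MM, Matrix.of_apply, if_pos rfl, one_mul]
    · intro e _ he
      rw [MM, Matrix.of_apply, if_neg he, zero_mul, zero_smul]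
    · intro h2
      exact absurd (Finset.mem_univ _) h2
  rw [Finset.sum_congr rfl fun a _ => e1 a, Fintype.sum_prod_type]
  have e2 : ∀ i : Fin N, ∑ j, (LL k (i, j) * HH k y m).trace • LL k (i, j).swap = bb k y m i • LL k (i, i) := by
    intro i
    rw [Finset.sum_eq_single i]
    · rw [tr_LL, if_pos rfl]
      rfl
    · intro e _ he
      rw [tr_LL, if_neg (Ne.symm he), zero_smul]
    · intro h2
      exact absurd (Finset.mem_univ _) h2
  rw [Finset.sum_congr rfl fun i _ => e2 i]
  obtain ⟨d, hd⟩ := W.bb_eq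
  ext S T
  rw [Matrix.sum_apply, Matrix.smul_apply, HH]
  simp only [Matrix.smul_apply, LL_diag, smul_eq_mul]
  by_cases h : S = T
  · subst h
    simp only [Matrix.diagonal_apply_eq]
    by_cases h2 : S.card = k
    · simp only [h2, if_true, mul_one]
      simp only [hd]
      have h3 : ∀ i : Fin N, (((N - 2).choose (k - 1) : ℚ) * y i + d) * ((if i ∈ S then 1 else 0) - 1 / 2) =
          ((N - 2).choose (k - 1) : ℚ) * (if i ∈ S then (y i : ℚ) else 0) + d * (if i ∈ S then 1 else 0) -
            ((N - 2).choose (k - 1) : ℚ) / 2 * y i - d / 2 := by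
        intro i
        split_ifs <;> ring
      rw [Finset.sum_congr rfl fun i _ => h3 i, Finset.sum_sub_distrib, Finset.sum_sub_distrib, Finset.sum_add_distrib,
        ← Finset.mul_sum, ← Finset.mul_sum, ← Finset.mul_sum, Finset.sum_ite_mem, Finset.sum_ite_mem, Finset.univ_inter,
        Finset.sum_const, Finset.sum_const, h2, Finset.card_univ, Fintype.card_fin]
      have h5 : ∑ l, (y l : ℚ) = 2 * m := by
        have := W.sum
        exact_mod_cast this
      have h6 : (lvl y m S : ℚ) = ∑ t ∈ S, (y t : ℚ) - m := by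
        rw [lvl]
        push_cast
        ring
      have h7 : (N : ℚ) = 2 * k := by
        have := W.hN
        exact_mod_cast this
      rw [h5, h6, nsmul_eq_mul, nsmul_eq_mul, h7]
      ring
    · simp only [h2, if_false, mul_zero, Finset.sum_const_zero]
  · simp only [Matrix.diagonal_apply_ne _ h, mul_zero, Finset.sum_const_zero]

theorem Wt.FM_val (W : Wt k y m) :
    FM N k (toC (HH k y m)) = (((N - 2).choose (k - 1) : ℕ) : ℂ) • toC (HH k y m) := by
  rw [FM, C9.FF_apply]
  have e1 : ∀ a, (toC (LL k a) * toC (HH k y m)).trace = (((LL k a * HH k y m).trace : ℚ) : ℂ) := by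
    intro a
    rw [← toC_mul90, Matrix.trace, Matrix.trace, Rat.cast_sum]
    rfl
  simp only [e1]
  have e2 := congrArg toC W.contr
  have e3 : toC (((N - 2).choose (k - 1) : ℚ) • HH k y m) = (((N - 2).choose (k - 1) : ℕ) : ℂ) • toC (HH k y m) := by
    ext i j
    simp [toC]
  rw [← e3, ← e2]
  ext i j
  simp only [toC, Matrix.map_apply, Matrix.sum_apply, Matrix.smul_apply, smul_eq_mul, map_sum, map_mul, eq_ratCast]

end MH.GS
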