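import Pool.Agent.Helper90.GS.Mid2

/-!
Project GS (MP_b8862a_ag): sharpness for the middle exterior power.
-/

set_option linter.unusedSectionVars false
set_option linter.unusedVariables false

open Matrix Module MH

namespace MH.GS

variable {N : ℕ} {k : ℕ} {y : Fin N → ℤ} {m : ℤ}

theorem KS_pos (d : Finset (Fin N) → ℚ) (u : Finset (Fin N) → ℂ) :
    (u ⬝ᵥ (toC (diagonal d) *ᵥ star u)).re = ∑ T, (d T : ℝ) * Complex.normSq (u T) := by
  have h1 : toC (diagonal d) = diagonal fun T => ((d T : ℚ) : ℂ) := by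
    rw [toC, Matrix.diagonal_map (map_zero _)]
    rfl
  rw [h1, dotProduct, Complex.re_sum]
  refine Finset.sum_congr rfl fun T _ => ?_
  rw [Matrix.mulVec_diagonal, Pi.star_apply]
  have h2 : u T * (((d T : ℚ) : ℂ) * star (u T)) = (((d T : ℝ) * Complex.normSq (u T) : ℝ) : ℂ) := by
    rw [Complex.star_def]
    push_cast
    rw [← Complex.mul_conj]
    ring
  rw [h2, Complex.ofReal_re]

theorem sum_pos_of {d : Finset (Fin N) → ℚ} {u : Finset (Fin N) → ℂ} (hu : u ≠ 0)
    (h : ∀ T, u T ≠ 0 → d T = 1) : 0 < ∑ T, (d T : ℝ) * Complex.normSq (u T) := by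
  obtain ⟨T, hT⟩ : ∃ T, u T ≠ 0 := by
    by_contra h2
    push Not at h2
    exact hu (funext h2)
  refine Finset.sum_pos' (fun S _ => ?_) ⟨T, Finset.mem_univ _, ?_⟩
  · by_cases h2 : u S = 0
    · rw [h2, map_zero, mul_zero]
    · rw [h S h2]
      simpa using Complex.normSq_nonneg _
  · rw [h T hT]
    simpa using Complex.normSq_pos.2 hT

theorem Wt.split (W : Wt k y m) : C9.Split (KK N) (SS y m) (pe N k) (lvl y m) (FM N k) where
  Ksymm := KK_tr W.hN W.hk
  Kdet := by
    have h := congrArg Matrix.det (KK_sq W.hN W.hk)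
    rw [Matrix.det_mul, Matrix.det_one] at h
    exact IsUnit.of_mul_eq_one _ h
  Ssymm := W.SS_tr
  Ssq := W.SS_sq
  SK := W.SK
  ee := pe_sq k
  eK := by rw [pe_tr, W.KK_pe]
  eS := W.pe_SS
  elv := fun S T h => by
    by_cases h2 : S = T
    · rw [h2]
    · rw [pe, Matrix.diagonal_apply_ne _ h2] at h
      exact absurd rfl h
  lve := fun T h1 h2 h3 => by
    have := W.b1 T
    omega
  Klv := fun S T h => by
    rw [KK, op_apply] at h
    by_cases h2 : S = Tᶜ
    · rw [h2, W.compl]
      ring
    · rw [if_neg h2] at h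
      exact absurd rfl h
  Slv := fun S T h => by
    rw [SS, KK, DD, op_diag, op_apply] at h
    by_cases h2 : S = Tᶜ
    · rw [h2, W.compl]
      ring
    · rw [if_neg h2] at h
      exact absurd rfl h
  pos0 := fun u hu h0 => by
    rw [W.KS, DD, KS_pos]
    refine sum_pos_of hu fun T hT => ?_
    have h1 : lvl y m T = 0 := by
      by_contra h2
      exact hT (h0 T h2)
    rw [sn, if_pos h1]
  pos1 := fun u hu h0 => by
    rw [W.KS, DD, KS_pos]
    have h1 := sum_pos_of (d := fun T => -sn (lvl y m T)) hu fun T hT => by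
      have h1 : lvl y m T = 1 := by
        by_contra h2
        exact hT (h0 T h2)
      rw [sn, if_neg (by omega), neg_neg]
    simp only [Rat.cast_neg, neg_mul, Finset.sum_neg_distrib] at h1
    linarith
  posm := fun u hu h0 => by
    rw [W.KS, DD, KS_pos]
    have h1 := sum_pos_of (d := fun T => -sn (lvl y m T)) hu fun T hT => by
      have h1 : lvl y m T = -1 := by
        by_contra h2
        exact hT (h0 T h2)
      rw [sn, if_neg (by omega), neg_neg]
    simp only [Rat.cast_neg, neg_mul, Finset.sum_neg_distrib] at h1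
    linarith
  Frat := fun A => C9.FF_rat _ _ A
  FS := fun Y => W.FM_SS Y

theorem Wt.good_rho (W : Wt k y m) {i j : Fin N} (h : i ≠ j) : C9.Good (KK N) (pe N k) (FM N k) (toC (rho i j)) where
  comm := by rw [← toC_mul90, ← toC_mul90, rho_pe]
  skew := by
    rw [show (toC (rho i j))ᵀ = toC (rho i j)ᵀ from rfl, rho_tr, ← toC_mul90, ← toC_mul90, ← toC_add90,
      KK_rho W.hN W.hk, if_neg h, zero_sub, neg_mul, add_neg_cancel, toC_zero90]
  der := fun Y => FM_rho k i j Y

/-! ### the commutant -/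

theorem rho_comm_all {B : Matrix (Finset (Fin N)) (Finset (Fin N)) ℂ} (W : Wt k y m)
    (h : ∀ i j, y i ≠ y j → B * toC (rho i j) = toC (rho i j) * B) (i j : Fin N) (hij : i ≠ j) :
    B * toC (rho i j) = toC (rho i j) * B := by
  by_cases h1 : y i = y j
  · obtain ⟨a, b, hab⟩ := W.ne
    obtain ⟨l, hl⟩ : ∃ l, y l ≠ y i := by
      by_cases h2 : y a = y i
      · exact ⟨b, fun h3 => hab (h2.trans h3.symm)⟩
      · exact ⟨a, h2⟩
    have e1 := h i l (Ne.symm hl)
    have e2 := h l j (by rw [← h1]; exact hl)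
    have e3 : rho i j = rho i l * rho l j - rho l j * rho i l := by
      rw [rho_br, if_pos rfl, if_neg (Ne.symm hij), sub_zero]
    rw [e3, toC_sub90, toC_mul90, toC_mul90, mul_sub, sub_mul]
    congr 1
    · rw [← mul_assoc, e1, mul_assoc, e2, mul_assoc]
    · rw [← mul_assoc, e2, mul_assoc, e1, mul_assoc]
  · exact h i j h1

theorem diag_of_comm {B : Matrix (Finset (Fin N)) (Finset (Fin N)) ℂ} (hk : k < N)
    (h : ∀ i j, i ≠ j → B * toC (rho i j) = toC (rho i j) * B) {S T : Finset (Fin N)} (hS : S.card = k) (hT : T.card = k)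
    (hST : S ≠ T) : B S T = 0 := by
  obtain ⟨i, hi, hi2⟩ : ∃ i, i ∈ T ∧ i ∉ S := by
    by_contra h1
    push Not at h1
    exact hST (Finset.eq_of_subset_of_card_le h1 (by rw [hS, hT])).symm
  obtain ⟨j, hj⟩ : ∃ j, j ∉ T := by
    by_contra h1
    push Not at h1
    have h2 : T = Finset.univ := Finset.eq_univ_of_forall h1
    rw [h2, Finset.card_univ, Fintype.card_fin] at hT
    omega
  have hij : i ≠ j := fun h1 => hj (h1 ▸ hi)
  have e1 : B * toC (rho i j * rho j i) = toC (rho i j * rho j i) * B := by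
    rw [toC_mul90, ← mul_assoc, h i j hij, mul_assoc, h j i (Ne.symm hij), mul_assoc]
  rw [rho_rho_swap hij, toC, Matrix.diagonal_map (map_zero _)] at e1
  have e2 := congrFun (congrFun e1 S) T
  rw [Matrix.mul_diagonal, Matrix.diagonal_mul, if_pos ⟨hi, hj⟩, if_neg (fun h1 => hi2 h1.1), map_one, map_zero, mul_one,
    zero_mul] at e2
  exact e2

theorem move_eq {B : Matrix (Finset (Fin N)) (Finset (Fin N)) ℂ} (hk : k < N)
    (h : ∀ i j, i ≠ j → B * toC (rho i j) = toC (rho i j) * B) {S : Finset (Fin N)} (hS : S.card = k) {i j : Fin N}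
    (hi : i ∉ S) (hj : j ∈ S) : B (insert i (S.erase j)) (insert i (S.erase j)) = B S S := by
  have hij : i ≠ j := fun h1 => hi (h1 ▸ hj)
  have hi2 : i ∉ S.erase j := fun h1 => hi (Finset.mem_of_mem_erase h1)
  obtain ⟨S', hS'⟩ : ∃ S', S' = insert i (S.erase j) := ⟨_, rfl⟩
  have hc : S'.card = k := by
    rw [hS', Finset.card_insert_of_notMem hi2, Finset.card_erase_of_mem hj, hS]
    have : 1 ≤ S.card := Finset.card_pos.2 ⟨j, hj⟩
    omega
  have e0 : ∀ U, toC (rho i j) U S = if U = S' then (((sg i (S.erase j)) * sg j S : ℚ) : ℂ) else 0 := by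
    intro U
    rw [toC, Matrix.map_apply, rho_op, op_apply, if_neg hi2, if_pos hj, ← hS']
    split_ifs
    · rfl
    · exact map_zero _
  have e1 : ∀ U, toC (rho i j) S' U = if U = S then (((sg i (S.erase j)) * sg j S : ℚ) : ℂ) else 0 := by
    intro U
    by_cases hU : U = S
    · rw [hU, e0, if_pos rfl, if_pos rfl]
    · rw [if_neg hU, toC, Matrix.map_apply, rho_op, op_apply]
      by_cases h2 : (if i ∈ U.erase j then 0 else sg i (U.erase j)) * (if j ∈ U then sg j U else 0) = (0 : ℚ)
      · rw [h2, ite_self, map_zero]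
      · obtain ⟨h3, h4⟩ := rho_ne h2
        rw [if_neg, map_zero]
        intro h5
        apply hU
        have h6 : (insert i (S.erase j)).erase i = (insert i (U.erase j)).erase i := by rw [← hS', h5]
        rw [Finset.erase_insert hi2, Finset.erase_insert h3] at h6
        rw [← Finset.insert_erase hj, ← Finset.insert_erase h4, h6]
  have e2 := congrFun (congrFun (h i j hij) S') S
  rw [Matrix.mul_apply, Matrix.mul_apply] at e2
  simp only [e0, e1] at e2
  rw [Finset.sum_eq_single S', Finset.sum_eq_single S, if_pos rfl, if_pos rfl] at e2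
  · have h7 : (((sg i (S.erase j)) * sg j S : ℚ) : ℂ) ≠ 0 := by
      exact_mod_cast mul_ne_zero (sg_ne i _) (sg_ne j S)
    rw [mul_comm] at e2
    rw [← hS']
    exact mul_left_cancel₀ h7 e2
  · intro U _ hU
    rw [if_neg hU, zero_mul]
  · intro h2
    exact absurd (Finset.mem_univ _) h2
  · intro U _ hU
    rw [if_neg hU, mul_zero]
  · intro h2
    exact absurd (Finset.mem_univ _) h2

theorem eq_of_comm {B : Matrix (Finset (Fin N)) (Finset (Fin N)) ℂ} (hk : k < N)
    (h : ∀ i j, i ≠ j → B * toC (rho i j) = toC (rho i j) * B) (r : ℕ) : ∀ S T : Finset (Fin N), S.card = k → T.card = k →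
    (T \ S).card = r → B S S = B T T := by
  induction r with
  | zero =>
    intro S T hS hT h0
    rw [Finset.card_eq_zero, Finset.sdiff_eq_empty_iff_subset] at h0
    rw [Finset.eq_of_subset_of_card_le h0 (by rw [hS, hT])]
  | succ r ih =>
    intro S T hS hT hr
    obtain ⟨i, hi⟩ : (T \ S).Nonempty := Finset.card_pos.1 (by omega)
    rw [Finset.mem_sdiff] at hi
    obtain ⟨j, hj⟩ : (S \ T).Nonempty := by
      rw [← Finset.card_pos]
      have h1 := Finset.card_sdiff_add_card_inter S T
      have h2 := Finset.card_sdiff_add_card_inter T S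
      rw [Finset.inter_comm] at h2
      omega
    rw [Finset.mem_sdiff] at hj
    rw [← move_eq hk h hS hi.2 hj.1]
    refine ih _ T ?_ hT ?_
    · have hi2 : i ∉ S.erase j := fun h1 => hi.2 (Finset.mem_of_mem_erase h1)
      rw [Finset.card_insert_of_notMem hi2, Finset.card_erase_of_mem hj.1, hS]
      have : 1 ≤ S.card := Finset.card_pos.2 ⟨j, hj.1⟩
      omega
    · have h1 : T \ insert i (S.erase j) = (T \ S).erase i := by
        ext x
        simp only [Finset.mem_sdiff, Finset.mem_insert, Finset.mem_erase, not_or, not_and]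
        constructor
        · rintro ⟨hx, hx1, hx2⟩
          refine ⟨hx1, hx, fun hx3 => ?_⟩
          by_cases hx4 : x = j
          · exact hj.2 (hx4 ▸ hx)
          · exact hx2 hx4 hx3
        · rintro ⟨hx, hx1, hx2⟩
          exact ⟨hx1, hx, fun _ => hx2⟩
      rw [h1, Finset.card_erase_of_mem (Finset.mem_sdiff.2 hi), hr]
      rfl

theorem toC_pe_apply (S T : Finset (Fin N)) : toC (pe N k) S T = if S = T ∧ S.card = k then 1 else 0 := by
  rw [toC, Matrix.map_apply, pe, Matrix.diagonal_apply]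
  by_cases h : S = T
  · subst h
    by_cases h2 : S.card = k
    · simp [h2]
    · simp [h2]
  · simp [h]

theorem pe_sandwich {B : Matrix (Finset (Fin N)) (Finset (Fin N)) ℂ} (h : toC (pe N k) * B * toC (pe N k) = B)
    {S T : Finset (Fin N)} (hST : S.card ≠ k ∨ T.card ≠ k) : B S T = 0 := by
  have h1 : toC (pe N k) = diagonal fun T : Finset (Fin N) => if T.card = k then (1 : ℂ) else 0 := by
    ext S T
    rw [toC_pe_apply, Matrix.diagonal_apply]
    by_cases h : S = T
    · subst h
      simp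
    · simp [h]
  rw [← h, h1, Matrix.mul_diagonal, Matrix.diagonal_mul]
  rcases hST with h2 | h2
  · rw [if_neg h2]
    simp
  · rw [if_neg h2]
    simp

theorem Wt.HHd (W : Wt k y m) : toC (HH k y m) = (C9.Dl (lvl y m) 1 - C9.Dl (lvl y m) (-1)) * toC (pe N k) := by
  ext S T
  rw [C9.Dl, C9.Dl, Matrix.diagonal_sub, Matrix.diagonal_mul, toC_pe_apply, toC, Matrix.map_apply, HH,
    Matrix.diagonal_apply]
  by_cases h : S = T
  · subst h
    by_cases h2 : S.card = k
    · have h3 := W.b1 S
      have h4 : lvl y m S = -1 ∨ lvl y m S = 0 ∨ lvl y m S = 1 := by omega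
      rcases h4 with h4 | h4 | h4 <;> rw [h4] <;> simp [h2]
    · simp [h2]
  · simp [h]

theorem Wt.scalar (W : Wt k y m) (hkN : k < N) (B : Matrix (Finset (Fin N)) (Finset (Fin N)) ℂ)
    (h1 : toC (pe N k) * B * toC (pe N k) = B) (h2 : B * toC (HH k y m) = toC (HH k y m) * B)
    (h3 : ∀ X, C9.Good (KK N) (pe N k) (FM N k) X → B * (X * toC (HH k y m) - toC (HH k y m) * X) =
      (X * toC (HH k y m) - toC (HH k y m) * X) * B) : ∃ b : ℂ, B = b • toC (pe N k) := by
  have hpe2 : toC (pe N k) * toC (pe N k) = toC (pe N k) := by rw [← toC_mul90, pe_sq]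
  have hBe : B * toC (pe N k) = B := by
    conv_lhs => rw [← h1]
    rw [mul_assoc, hpe2, h1]
  have heB : toC (pe N k) * B = B := by
    conv_lhs => rw [← h1]
    rw [← mul_assoc, ← mul_assoc, hpe2, h1]
  have key : ∀ i j, y i ≠ y j → B * toC (rho i j) = toC (rho i j) * B := by
    intro i j hij
    have hij2 : i ≠ j := fun h => hij (by rw [h])
    have e1 := h3 _ (W.good_rho hij2)
    have e2 : toC (rho i j) * toC (HH k y m) - toC (HH k y m) * toC (rho i j) =
        ((((y j : ℚ) - y i : ℚ)) : ℂ) • (toC (rho i j) * toC (pe N k)) := by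
      have e3 : rho i j * HH k y m - HH k y m * rho i j = ((y j : ℚ) - y i) • (rho i j * pe N k) := by
        have e4 := lvl_rho (y := y) (m := m) i j
        rw [HH_eq, ← mul_assoc, mul_assoc _ (pe N k), ← rho_pe, ← mul_assoc, ← sub_mul, ← neg_sub, e4, ← neg_smul,
          neg_sub, smul_mul_assoc]
      rw [← toC_mul90, ← toC_mul90, ← toC_sub90, e3]
      ext S T
      simp [toC, Matrix.mul_apply]
    rw [e2, mul_smul_comm, smul_mul_assoc] at e1
    have h5 : ((((y j : ℚ) - y i : ℚ)) : ℂ) ≠ 0 := by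
      have h6 : ((y j : ℚ) - y i : ℚ) ≠ 0 := by
        intro h7
        apply hij
        have h8 : (y j : ℚ) = y i := by linarith
        exact_mod_cast h8.symm
      exact_mod_cast h6
    have e4 := smul_right_injective _ h5 e1
    have e5 : toC (rho i j) * toC (pe N k) = toC (pe N k) * toC (rho i j) := by rw [← toC_mul90, ← toC_mul90, rho_pe]
    have e6 : B * (toC (rho i j) * toC (pe N k)) = B * toC (rho i j) := by
      rw [e5, ← mul_assoc, hBe]
    have e7 : toC (rho i j) * toC (pe N k) * B = toC (rho i j) * B := by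
      rw [mul_assoc, heB]
    rw [← e6, ← e7]
    exact e4
  have key2 := fun i j hij => rho_comm_all W key i j hij
  obtain ⟨T0, hT0⟩ : ∃ T0 : Finset (Fin N), T0.card = k := by
    obtain ⟨T0, _, hT0⟩ := Finset.exists_subset_card_eq (s := (Finset.univ : Finset (Fin N))) (n := k)
      (by rw [Finset.card_univ, Fintype.card_fin]; exact hkN.le)
    exact ⟨T0, hT0⟩
  refine ⟨B T0 T0, ?_⟩
  ext S T
  rw [Matrix.smul_apply, toC_pe_apply, smul_eq_mul]
  by_cases hST : S = T
  · subst hST
    by_cases hS : S.card = k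
    · rw [if_pos ⟨rfl, hS⟩, mul_one]
      exact eq_of_comm hkN key2 _ S T0 hS hT0 rfl
    · rw [if_neg (fun h => hS h.2), mul_zero]
      exact pe_sandwich h1 (Or.inl hS)
  · rw [if_neg (fun h => hST h.1), mul_zero]
    by_cases hS : S.card = k
    · by_cases hT : T.card = k
      · exact diag_of_comm hkN key2 hS hT hST
      · exact pe_sandwich h1 (Or.inr hT)
    · exact pe_sandwich h1 (Or.inl hS)

/-! ### the ranks -/

theorem rank_Dl (l : ℤ) : (C9.Dl (lvl y m) l * toC (pe N k)).rank =
    ((Finset.univ : Finset (Finset (Fin N))).filter fun T => T.card = k ∧ lvl y m T = l).card := by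
  have h1 : C9.Dl (lvl y m) l * toC (pe N k) =
      diagonal fun T => if T.card = k ∧ lvl y m T = l then (1 : ℂ) else 0 := by
    ext S T
    rw [C9.Dl, Matrix.diagonal_mul, toC_pe_apply, Matrix.diagonal_apply]
    by_cases h : S = T
    · subst h
      by_cases h2 : S.card = k <;> by_cases h3 : lvl y m S = l <;> simp [h2, h3]
    · simp [h]
  rw [h1, Matrix.rank_diagonal, ← Fintype.card_subtype]
  refine Fintype.card_congr (Equiv.subtypeEquivRight fun T => ?_)
  by_cases h2 : T.card = k ∧ lvl y m T = l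
  · simp [h2]
  · simp [h2]

theorem Wt.sharp (W : Wt k y m) {s t : ℕ}
    (hs : ((Finset.univ : Finset (Finset (Fin N))).filter fun T => T.card = k ∧ lvl y m T = 1).card = s)
    (ht : ((Finset.univ : Finset (Finset (Fin N))).filter fun T => T.card = k ∧ lvl y m T = 0).card = t)
    (hst : N * N < 2 * s * t) : C9.Sharp s t := by
  have hk2 := W.k2
  have hN := W.hN
  have hkN : k < N := by omega
  have hc : (((N - 2).choose (k - 1) : ℕ) : ℂ) ≠ 0 := by
    have h1 : 0 < (N - 2).choose (k - 1) := Nat.choose_pos (by omega)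
    exact_mod_cast h1.ne'
  refine C9.sharp_of_split W.split (H := toC (HH k y m)) W.HHd FM_HH hc W.FM_val (W.scalar hkN)
    (by rw [rank_Dl, hs]) (by rw [rank_Dl, ht]) ?_
  refine (C9.FF_rank _ _).trans_lt ?_
  rw [Fintype.card_prod, Fintype.card_fin]
  exact hst

end MH.GS
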